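import Pool.Agent.helper45.PV.SpecG

/-!
# Project pv, block G: assembly
-/

set_option autoImplicit false

open scoped Matrix Topology

namespace Pool.Agent.PV

open Pool.Agent.CZ

/-- additive isomorphism of a quotient -/
theorem YSP_quot {A B S : Type} [AddCommGroup A] [AddCommGroup B] [AddCommGroup S] (T : A →+ B) (q : A →+ S)
    (hq : Function.Surjective q) (h : T.ker = q.ker) : Nonempty (T.range ≃+ S) := by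
  have e1 : A ⧸ T.ker ≃+ T.range := QuotientAddGroup.quotientKerEquivRange T
  have e2 : A ⧸ q.ker ≃+ S := QuotientAddGroup.quotientKerEquivOfSurjective q hq
  have e3 : A ⧸ T.ker ≃+ A ⧸ q.ker := QuotientAddGroup.quotientAddEquivOfEq h
  exact ⟨(e1.symm.trans e3).trans e2⟩

theorem YSP_evcont {X : Type} [TopologicalSpace X] [CompactSpace X] (x : X) : Continuous (evC ℂ x) :=
  continuous_eval_const x

/-- The first space: `K̃₀ = S`, `K₁ = 0`. -/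
theorem YSP_Y0 (hPRE : PRE_stmt) (hMK0 : MK0_stmt) (hMK1 : MK1_stmt) (hMCS : MCS_stmt) (hKEQ : KEQ_stmt)
    (S : Type) [AddCommGroup S] [Countable S] :
    ∃ (Y : Type) (_ : TopologicalSpace Y) (_ : CompactSpace Y) (_ : TopologicalSpace.MetrizableSpace Y)
      (_ : PathConnectedSpace Y) (y : Y), Nonempty ((k0map (evC ℂ y).toRingHom).ker ≃+ S) ∧
      ∀ z : K1 C(Y, ℂ), z = 0 := by
  obtain ⟨X, _, _, _, _, f, hf, hsurj, hK0, hinj, q, hq, hker⟩ := hPRE S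
  obtain ⟨x₀⟩ : Nonempty X := PathConnectedSpace.nonempty
  obtain ⟨T, hTr, hTk⟩ := hMK0 C(X, ℂ) C(X, ℂ) (pbC ℂ f) (evC ℂ x₀) hf (YSP_evcont x₀) hK0
  have h1 := hMK1 C(X, ℂ) C(X, ℂ) (pbC ℂ f) (evC ℂ x₀) hf (YSP_evcont x₀) hinj hK0
  obtain ⟨Y, _, _, _, _, y, Θ, hΘ, hΘ', hy⟩ := hMCS X f x₀ hsurj
  obtain ⟨hK, hK1⟩ := hKEQ _ _ Θ hΘ hΘ'
  obtain ⟨e1⟩ := hK (evC ℂ y) (eM (pbC ℂ f) (evC ℂ x₀)) hy
  obtain ⟨e2⟩ := hK1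
  obtain ⟨e3⟩ := YSP_quot T q hq (hTk.trans hker.symm)
  have e4 : T.range ≃+ (k0map (eM (pbC ℂ f) (evC ℂ x₀)).toRingHom).ker := AddEquiv.addSubgroupCongr hTr
  refine ⟨Y, _, inferInstance, inferInstance, inferInstance, y, ⟨(e1.trans e4.symm).trans e3⟩, ?_⟩
  intro z
  apply e2.injective
  rw [map_zero]
  exact h1 _

/-- The second space: `K̃₀ = 0`, `K₁ = S`. -/
theorem YSP_Y1 (hPRE : PRE_stmt) (hMK0 : MK0_stmt) (hMK1 : MK1_stmt) (hMCS : MCS_stmt) (hKEQ : KEQ_stmt)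
    (hS20 : S20_stmt) (hS21 : S21_stmt) (hSUS : SUS_stmt)
    (S : Type) [AddCommGroup S] [Countable S] :
    ∃ (Y : Type) (_ : TopologicalSpace Y) (_ : CompactSpace Y) (_ : TopologicalSpace.MetrizableSpace Y)
      (_ : PathConnectedSpace Y) (y : Y), (∀ z : K0 C(Y, ℂ), k0map (evC ℂ y).toRingHom z = 0 → z = 0) ∧
      Nonempty (K1 C(Y, ℂ) ≃+ S) := by
  obtain ⟨Y₀, _, _, _, _, y₀, ⟨e0⟩, h0⟩ := YSP_Y0 hPRE hMK0 hMK1 hMCS hKEQ S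
  obtain ⟨Y, _, _, _, _, y, Θ, hΘ, hΘ', hy⟩ := hSUS Y₀ y₀
  obtain ⟨hK, hK1⟩ := hKEQ _ _ Θ hΘ hΘ'
  obtain ⟨e1⟩ := hK (evC ℂ y) (e2 (evC ℂ y₀)) hy
  obtain ⟨e2'⟩ := hK1
  obtain ⟨e3⟩ := hS21 C(Y₀, ℂ) (evC ℂ y₀) (YSP_evcont y₀)
  refine ⟨Y, _, inferInstance, inferInstance, inferInstance, y, ?_, ⟨(e2'.trans e3).trans e0⟩⟩
  intro z hz
  have h2 : (e1 ⟨z, hz⟩ : K0 (L2 (evC ℂ y₀))) = 0 :=
    hS20 C(Y₀, ℂ) (evC ℂ y₀) (YSP_evcont y₀) h0 _ (e1 ⟨z, hz⟩).2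
  have h3 : e1 ⟨z, hz⟩ = 0 := Subtype.ext h2
  have h4 : (⟨z, hz⟩ : (k0map (evC ℂ y).toRingHom).ker) = 0 := by
    apply e1.injective
    rw [h3, map_zero]
  exact congrArg Subtype.val h4

theorem YSP_of (hPRE : PRE_stmt) (hMK0 : MK0_stmt) (hMK1 : MK1_stmt) (hMCS : MCS_stmt) (hKEQ : KEQ_stmt)
    (hS20 : S20_stmt) (hS21 : S21_stmt) (hSUS : SUS_stmt) (hWDK : WDK_stmt) : YSP_stmt := by
  intro S₀ S₁ _ _ _ _
  obtain ⟨Y₀, _, _, _, _, y₀, ⟨e0⟩, h0⟩ := YSP_Y0 hPRE hMK0 hMK1 hMCS hKEQ S₀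
  obtain ⟨Y₁, _, _, _, _, y₁, h1, ⟨e1⟩⟩ := YSP_Y1 hPRE hMK0 hMK1 hMCS hKEQ hS20 hS21 hSUS S₁
  obtain ⟨Y, _, _, _, _, y, ⟨e2⟩, ⟨e3⟩⟩ := hWDK Y₀ Y₁ y₀ y₁ h1 h0
  exact ⟨Y, _, inferInstance, inferInstance, inferInstance, y, ⟨e2.trans e0⟩, ⟨e3.trans e1⟩⟩

end Pool.Agent.PV
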