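import Pool.Agent.helper45.PV.DefsG2

/-!
# Project pv (MP_376aaf_an), block G: the compact space `Y` with prescribed K-theory. Definitions

The targets. The algebras of loops and paths are in `DefsG2`.
-/

set_option autoImplicit false

open scoped Matrix

namespace Pool.Agent.PV

open Pool.Agent.CZ

/-! ### The targets of half 1 and the final statement -/

/-- **PRE** (target of half 1, helper28): the Hawaiian earring with a self map `f` with prescribed cokernel on `K₁`. -/
def PRE_stmt : Prop := ∀ (S : Type) [AddCommGroup S] [Countable S], ∃ (X : Type) (_ : TopologicalSpace X)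
  (_ : CompactSpace X) (_ : TopologicalSpace.MetrizableSpace X) (_ : PathConnectedSpace X) (f : C(X, X))
  (hf : Continuous (pbC ℂ f).toRingHom), Function.Surjective f ∧
    (∀ z : K0 C(X, ℂ), ∃ n : ℤ, z = n • unitCls C(X, ℂ)) ∧
    Function.Injective (k1map (pbC ℂ f).toRingHom hf) ∧
    ∃ q : K1 C(X, ℂ) →+ S, Function.Surjective q ∧ q.ker = (k1map (pbC ℂ f).toRingHom hf).range

/-- **SUB** (target of half 1, helper28): closed star subalgebras of `C(X)` are algebras of functions on quotients. -/
def SUB_stmt : Prop := ∀ (X : Type) [TopologicalSpace X] [CompactSpace X]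
  [TopologicalSpace.MetrizableSpace X] (R : StarSubalgebra ℂ C(X, ℂ)), IsClosed (R : Set C(X, ℂ)) →
  ∃ (Y : Type) (_ : TopologicalSpace Y) (_ : CompactSpace Y) (_ : TopologicalSpace.MetrizableSpace Y)
    (p : C(X, Y)), Function.Surjective p ∧ ∀ g : C(X, ℂ), g ∈ R ↔ ∃ h : C(Y, ℂ), h.comp p = g

/-- **YSP** (target of block G): the space `Y` with `K̃₀(C(Y)) = S₀`, `K₁(C(Y)) = S₁`. -/
def YSP_stmt : Prop := ∀ (S₀ S₁ : Type) [AddCommGroup S₀] [Countable S₀] [AddCommGroup S₁] [Countable S₁],
  ∃ (Y : Type) (_ : TopologicalSpace Y) (_ : CompactSpace Y) (_ : TopologicalSpace.MetrizableSpace Y)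
    (_ : PathConnectedSpace Y) (y : Y), Nonempty ((k0map (evC ℂ y).toRingHom).ker ≃+ S₀) ∧
    Nonempty (K1 C(Y, ℂ) ≃+ S₁)

end Pool.Agent.PV
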