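import Pool.Agent.helper77.PV.Iface

/-!
# Project pv (MP_376aaf_an), block G: the algebras of loops and paths

`L1 D`: loops in `D` with scalar value at the base point. `MC φ`: the mapping cone of `φ : C → D` (paths in `D`
from a scalar to a value of `φ`). `L2 χ`: the functions on the reduced suspension. They are types with their own
instances `NormedRing`, `NormedAlgebra ℂ`.
-/

set_option autoImplicit false

open scoped Matrix

namespace Pool.Agent.PV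

open Pool.Agent.CZ

/-- the map of the unit interval onto the circle -/
noncomputable def qI : C(unitInterval, UnitAddCircle) :=
  ⟨fun s => ((s : ℝ) : UnitAddCircle), (AddCircle.continuous_mk' (1 : ℝ)).comp continuous_subtype_val⟩

section

variable (D : Type) [NormedRing D] [NormedAlgebra ℂ D]

/-- the loops in `D` with scalar value at the base point, as a subalgebra -/
noncomputable def L1s : Subalgebra ℂ C(UnitAddCircle, D) where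
  carrier := {h | ∃ c : ℂ, h 0 = algebraMap ℂ D c}
  mul_mem' := by
    rintro f g ⟨a, ha⟩ ⟨b, hb⟩
    exact ⟨a * b, by rw [map_mul, ← ha, ← hb]; rfl⟩
  add_mem' := by
    rintro f g ⟨a, ha⟩ ⟨b, hb⟩
    exact ⟨a + b, by rw [map_add, ← ha, ← hb]; rfl⟩
  algebraMap_mem' := fun c => ⟨c, rfl⟩

/-- the loops in `D` with scalar value at the base point -/
def L1 : Type := ↥(L1s D)

noncomputable instance : NormedRing (L1 D) := inferInstanceAs (NormedRing ↥(L1s D))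

noncomputable instance : NormedAlgebra ℂ (L1 D) := inferInstanceAs (NormedAlgebra ℂ ↥(L1s D))

/-- the inclusion into the algebra of all loops -/
noncomputable def vL : L1 D →ₐ[ℂ] C(UnitAddCircle, D) := (L1s D).val

end

section

variable {C D : Type} [NormedRing C] [NormedAlgebra ℂ C] [NormedRing D] [NormedAlgebra ℂ D]

/-- the mapping cone as a subalgebra -/
noncomputable def MCs (φ : C →ₐ[ℂ] D) : Subalgebra ℂ (C(unitInterval, D) × C) where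
  carrier := {p | (∃ c : ℂ, p.1 0 = algebraMap ℂ D c) ∧ p.1 1 = φ p.2}
  mul_mem' := by
    rintro f g ⟨⟨a, ha⟩, ha'⟩ ⟨⟨b, hb⟩, hb'⟩
    refine ⟨⟨a * b, by rw [map_mul, ← ha, ← hb]; rfl⟩, ?_⟩
    rw [Prod.snd_mul, map_mul, ← ha', ← hb']
    rfl
  add_mem' := by
    rintro f g ⟨⟨a, ha⟩, ha'⟩ ⟨⟨b, hb⟩, hb'⟩
    refine ⟨⟨a + b, by rw [map_add, ← ha, ← hb]; rfl⟩, ?_⟩
    rw [Prod.snd_add, map_add, ← ha', ← hb']
    rfl
  algebraMap_mem' := fun c => ⟨⟨c, rfl⟩, (φ.commutes c).symm⟩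

/-- the mapping cone of `φ : C → D`: pairs of a path `h` in `D` and `g ∈ C` with `h(0)` scalar, `h(1) = φ(g)` -/
def MC (φ : C →ₐ[ℂ] D) : Type := ↥(MCs φ)

noncomputable instance (φ : C →ₐ[ℂ] D) : NormedRing (MC φ) := inferInstanceAs (NormedRing ↥(MCs φ))

noncomputable instance (φ : C →ₐ[ℂ] D) : NormedAlgebra ℂ (MC φ) :=
  inferInstanceAs (NormedAlgebra ℂ ↥(MCs φ))

/-- the inclusion into the product -/
noncomputable def vM (φ : C →ₐ[ℂ] D) : MC φ →ₐ[ℂ] (C(unitInterval, D) × C) := (MCs φ).val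

/-- the loops `h` with `h(0)` and `χ ∘ h` scalar, as a subalgebra -/
noncomputable def L2s (χ : D →ₐ[ℂ] ℂ) : Subalgebra ℂ C(UnitAddCircle, D) where
  carrier := {h | (∃ c : ℂ, h 0 = algebraMap ℂ D c) ∧ ∃ c : ℂ, ∀ t, χ (h t) = c}
  mul_mem' := by
    rintro f g ⟨⟨a, ha⟩, a', ha'⟩ ⟨⟨b, hb⟩, b', hb'⟩
    refine ⟨⟨a * b, by rw [map_mul, ← ha, ← hb]; rfl⟩, a' * b', fun t => ?_⟩
    rw [← ha' t, ← hb' t, ← map_mul]
    rfl
  add_mem' := by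
    rintro f g ⟨⟨a, ha⟩, a', ha'⟩ ⟨⟨b, hb⟩, b', hb'⟩
    refine ⟨⟨a + b, by rw [map_add, ← ha, ← hb]; rfl⟩, a' + b', fun t => ?_⟩
    rw [← ha' t, ← hb' t, ← map_add]
    rfl
  algebraMap_mem' := fun c => ⟨⟨c, rfl⟩, c, fun _ => χ.commutes c⟩

/-- the loops `h` with `h(0)` and `χ ∘ h` scalar -/
def L2 (χ : D →ₐ[ℂ] ℂ) : Type := ↥(L2s χ)

noncomputable instance (χ : D →ₐ[ℂ] ℂ) : NormedRing (L2 χ) := inferInstanceAs (NormedRing ↥(L2s χ))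

noncomputable instance (χ : D →ₐ[ℂ] ℂ) : NormedAlgebra ℂ (L2 χ) :=
  inferInstanceAs (NormedAlgebra ℂ ↥(L2s χ))

/-- the inclusion into the algebra of all loops -/
noncomputable def v2 (χ : D →ₐ[ℂ] ℂ) : L2 χ →ₐ[ℂ] C(UnitAddCircle, D) := (L2s χ).val

/-! ### Basic lemmas -/

theorem vL_inj (x y : L1 D) (h : vL D x = vL D y) : x = y := Subtype.ext h

theorem vL_norm (x : L1 D) : ‖vL D x‖ = ‖x‖ := rfl

theorem vL_cont : Continuous (vL D) := continuous_subtype_val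

theorem vL_mem (x : L1 D) : ∃ c : ℂ, vL D x 0 = algebraMap ℂ D c := x.2

theorem vL_ex (h : C(UnitAddCircle, D)) (c : ℂ) (hc : h 0 = algebraMap ℂ D c) : ∃ x : L1 D, vL D x = h :=
  ⟨(⟨h, c, hc⟩ : ↥(L1s D)), rfl⟩

/-- continuity of a map into `L1 D` -/
theorem vL_into {K : Type} [TopologicalSpace K] (f : K → L1 D) (h : Continuous fun k => vL D (f k)) :
    Continuous f := Continuous.subtype_mk h fun k => (f k).2

theorem vM_inj (φ : C →ₐ[ℂ] D) (x y : MC φ) (h : vM φ x = vM φ y) : x = y := Subtype.ext h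

theorem vM_norm (φ : C →ₐ[ℂ] D) (x : MC φ) : ‖vM φ x‖ = ‖x‖ := rfl

theorem vM_cont (φ : C →ₐ[ℂ] D) : Continuous (vM φ) := continuous_subtype_val

theorem vM_mem (φ : C →ₐ[ℂ] D) (x : MC φ) : (∃ c : ℂ, (vM φ x).1 0 = algebraMap ℂ D c) ∧
    (vM φ x).1 1 = φ (vM φ x).2 := x.2

theorem vM_ex (φ : C →ₐ[ℂ] D) (p : C(unitInterval, D) × C) (c : ℂ) (hc : p.1 0 = algebraMap ℂ D c)
    (h1 : p.1 1 = φ p.2) : ∃ x : MC φ, vM φ x = p := ⟨(⟨p, ⟨c, hc⟩, h1⟩ : ↥(MCs φ)), rfl⟩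

/-- continuity of a map into `MC φ` -/
theorem vM_into {K : Type} [TopologicalSpace K] (φ : C →ₐ[ℂ] D) (f : K → MC φ)
    (h : Continuous fun k => vM φ (f k)) : Continuous f := Continuous.subtype_mk h fun k => (f k).2

theorem v2_inj (χ : D →ₐ[ℂ] ℂ) (x y : L2 χ) (h : v2 χ x = v2 χ y) : x = y := Subtype.ext h

theorem v2_norm (χ : D →ₐ[ℂ] ℂ) (x : L2 χ) : ‖v2 χ x‖ = ‖x‖ := rfl

theorem v2_cont (χ : D →ₐ[ℂ] ℂ) : Continuous (v2 χ) := continuous_subtype_val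

theorem v2_mem (χ : D →ₐ[ℂ] ℂ) (x : L2 χ) : (∃ c : ℂ, v2 χ x 0 = algebraMap ℂ D c) ∧
    ∃ c : ℂ, ∀ t, χ (v2 χ x t) = c := x.2

theorem v2_ex (χ : D →ₐ[ℂ] ℂ) (h : C(UnitAddCircle, D)) (c c' : ℂ) (hc : h 0 = algebraMap ℂ D c)
    (hc' : ∀ t, χ (h t) = c') : ∃ x : L2 χ, v2 χ x = h := ⟨(⟨h, ⟨c, hc⟩, c', hc'⟩ : ↥(L2s χ)), rfl⟩

/-- continuity of a map into `L2 χ` -/
theorem v2_into {K : Type} [TopologicalSpace K] (χ : D →ₐ[ℂ] ℂ) (f : K → L2 χ)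
    (h : Continuous fun k => v2 χ (f k)) : Continuous f := Continuous.subtype_mk h fun k => (f k).2

/-! ### Homomorphisms -/

/-- the value of the path at `s` -/
noncomputable def pM (φ : C →ₐ[ℂ] D) (s : unitInterval) : MC φ →ₐ[ℂ] D :=
  (evC D s).comp ((AlgHom.fst ℂ C(unitInterval, D) C).comp (vM φ))

/-- the component in `C` -/
noncomputable def gM (φ : C →ₐ[ℂ] D) : MC φ →ₐ[ℂ] C :=
  (AlgHom.snd ℂ C(unitInterval, D) C).comp (vM φ)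

/-- the value of the loop at `t` -/
noncomputable def pL (D : Type) [NormedRing D] [NormedAlgebra ℂ D] (t : UnitAddCircle) : L1 D →ₐ[ℂ] D :=
  (evC D t).comp (vL D)

/-- the character `h ↦ h(0)` of `L1 D` -/
noncomputable def eL (χ : D →ₐ[ℂ] ℂ) : L1 D →ₐ[ℂ] ℂ := χ.comp (pL D 0)

/-- the character `(h, g) ↦ h(0)` of `MC φ` -/
noncomputable def eM (φ : C →ₐ[ℂ] D) (χ : D →ₐ[ℂ] ℂ) : MC φ →ₐ[ℂ] ℂ := χ.comp (pM φ 0)

/-- the character `h ↦ h(0)` of `L2 χ` -/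
noncomputable def e2 (χ : D →ₐ[ℂ] ℂ) : L2 χ →ₐ[ℂ] ℂ := (χ.comp (el D)).comp (v2 χ)

theorem L1_eq (χ : D →ₐ[ℂ] ℂ) (h : L1 D) : pL D 0 h = algebraMap ℂ D (eL χ h) := by
  obtain ⟨c, hc⟩ := vL_mem h
  change vL D h 0 = algebraMap ℂ D (χ (vL D h 0))
  rw [hc, χ.commutes]
  rfl

theorem MC_eq0 (φ : C →ₐ[ℂ] D) (χ : D →ₐ[ℂ] ℂ) (p : MC φ) : pM φ 0 p = algebraMap ℂ D (eM φ χ p) := by
  obtain ⟨⟨c, hc⟩, h1⟩ := vM_mem φ p
  change (vM φ p).1 0 = algebraMap ℂ D (χ ((vM φ p).1 0))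
  rw [hc, χ.commutes]
  rfl

theorem MC_eq1 (φ : C →ₐ[ℂ] D) (p : MC φ) : pM φ 1 p = φ (gM φ p) := (vM_mem φ p).2

theorem L2_eq (χ : D →ₐ[ℂ] ℂ) (h : L2 χ) : v2 χ h 0 = algebraMap ℂ D (e2 χ h) := by
  obtain ⟨⟨c, hc⟩, h1⟩ := v2_mem χ h
  change v2 χ h 0 = algebraMap ℂ D (χ (v2 χ h 0))
  rw [hc, χ.commutes]
  rfl

theorem L2_eq' (χ : D →ₐ[ℂ] ℂ) (h : L2 χ) (t : UnitAddCircle) : χ (v2 χ h t) = e2 χ h := by
  obtain ⟨-, c, hc⟩ := v2_mem χ h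
  change χ (v2 χ h t) = χ (v2 χ h 0)
  rw [hc, hc]

theorem extM1 (φ : C →ₐ[ℂ] D) (x y : MC φ) (h : ∀ s, pM φ s x = pM φ s y) (h' : gM φ x = gM φ y) :
    x = y := by
  refine vM_inj φ x y (Prod.ext ?_ h')
  ext s
  exact h s

theorem extL1 (x y : L1 D) (h : ∀ t, pL D t x = pL D t y) : x = y := by
  refine vL_inj x y ?_
  ext t
  exact h t

/-- the inclusion `L1 D → MC φ` as a linear map of subalgebras, `h ↦ (h ∘ q, h(0))` -/
noncomputable def jmF (φ : C →ₐ[ℂ] D) (χ : D →ₐ[ℂ] ℂ) (h : L1 D) : MC φ :=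
  (⟨((vL D h).comp qI, algebraMap ℂ C (eL χ h)), ⟨eL χ h, by
    rw [← L1_eq χ h]
    change vL D h ((((0 : unitInterval) : ℝ)) : UnitAddCircle) = vL D h 0
    congr 1⟩, by
    change vL D h ((((1 : unitInterval) : ℝ)) : UnitAddCircle) = φ (algebraMap ℂ C (eL χ h))
    rw [φ.commutes, ← L1_eq χ h]
    change vL D h ((((1 : unitInterval) : ℝ)) : UnitAddCircle) = vL D h 0
    congr 1
    simp⟩ : ↥(MCs φ))

theorem pM_jmF (φ : C →ₐ[ℂ] D) (χ : D →ₐ[ℂ] ℂ) (s : unitInterval) (h : L1 D) :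
    pM φ s (jmF φ χ h) = pL D ((s : ℝ) : UnitAddCircle) h := rfl

theorem gM_jmF (φ : C →ₐ[ℂ] D) (χ : D →ₐ[ℂ] ℂ) (h : L1 D) :
    gM φ (jmF φ χ h) = algebraMap ℂ C (eL χ h) := rfl

/-- the inclusion `L1 D → MC φ`, `h ↦ (h ∘ q, h(0))` -/
noncomputable def jm (φ : C →ₐ[ℂ] D) (χ : D →ₐ[ℂ] ℂ) : L1 D →ₐ[ℂ] MC φ where
  toFun := jmF φ χ
  map_one' := by
    refine extM1 φ _ _ (fun s => ?_) ?_
    · rw [pM_jmF, map_one, map_one]
    · rw [gM_jmF, map_one, map_one, map_one]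
  map_mul' f g := by
    refine extM1 φ _ _ (fun s => ?_) ?_
    · rw [map_mul, pM_jmF, pM_jmF, pM_jmF, map_mul]
    · rw [map_mul, gM_jmF, gM_jmF, gM_jmF, map_mul, map_mul]
  map_zero' := by
    refine extM1 φ _ _ (fun s => ?_) ?_
    · rw [pM_jmF, map_zero, map_zero]
    · rw [gM_jmF, map_zero, map_zero, map_zero]
  map_add' f g := by
    refine extM1 φ _ _ (fun s => ?_) ?_
    · rw [map_add, pM_jmF, pM_jmF, pM_jmF, map_add]
    · rw [map_add, gM_jmF, gM_jmF, gM_jmF, map_add, map_add]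
  commutes' c := by
    refine extM1 φ _ _ (fun s => ?_) ?_
    · rw [pM_jmF, AlgHom.commutes, AlgHom.commutes]
    · rw [gM_jmF, AlgHom.commutes, AlgHom.commutes]
      rfl

theorem pM_jm (φ : C →ₐ[ℂ] D) (χ : D →ₐ[ℂ] ℂ) (s : unitInterval) (h : L1 D) :
    pM φ s (jm φ χ h) = pL D ((s : ℝ) : UnitAddCircle) h := rfl

theorem gM_jm (φ : C →ₐ[ℂ] D) (χ : D →ₐ[ℂ] ℂ) (h : L1 D) :
    gM φ (jm φ χ h) = algebraMap ℂ C (eL χ h) := rfl

theorem pM_cont (φ : C →ₐ[ℂ] D) (s : unitInterval) : Continuous (pM φ s) := by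
  change Continuous fun p : MC φ => (vM φ p).1 s
  exact (continuous_eval_const s).comp (continuous_fst.comp (vM_cont φ))

theorem gM_cont (φ : C →ₐ[ℂ] D) : Continuous (gM φ) := by
  change Continuous fun p : MC φ => (vM φ p).2
  exact continuous_snd.comp (vM_cont φ)

theorem pL_cont (D : Type) [NormedRing D] [NormedAlgebra ℂ D] (t : UnitAddCircle) :
    Continuous (pL D t) := by
  change Continuous fun p : L1 D => (vL D p) t
  exact (continuous_eval_const t).comp vL_cont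

theorem eL_cont (χ : D →ₐ[ℂ] ℂ) (hχ : Continuous χ) : Continuous (eL χ) := hχ.comp (pL_cont D 0)

theorem eM_cont (φ : C →ₐ[ℂ] D) (χ : D →ₐ[ℂ] ℂ) (hχ : Continuous χ) : Continuous (eM φ χ) :=
  hχ.comp (pM_cont φ 0)

theorem e2_cont (χ : D →ₐ[ℂ] ℂ) (hχ : Continuous χ) : Continuous (e2 χ) :=
  hχ.comp ((continuous_eval_const (0 : UnitAddCircle)).comp (v2_cont χ))

theorem jm_cont (φ : C →ₐ[ℂ] D) (χ : D →ₐ[ℂ] ℂ) (hχ : Continuous χ) : Continuous (jm φ χ) := by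
  refine vM_into φ _ ?_
  change Continuous fun h : L1 D => ((vL D h).comp qI, algebraMap ℂ C (eL χ h))
  exact ((ContinuousMap.continuous_precomp qI).comp vL_cont).prodMk
    ((continuous_algebraMap ℂ C).comp (eL_cont χ hχ))

/-- the inclusion `L2 χ → L1 D` -/
noncomputable def i2 (χ : D →ₐ[ℂ] ℂ) : L2 χ →ₐ[ℂ] L1 D :=
  (Subalgebra.inclusion (fun _ h => h.1 : L2s χ ≤ L1s D) : ↥(L2s χ) →ₐ[ℂ] ↥(L1s D))

theorem vL_i2 (χ : D →ₐ[ℂ] ℂ) (x : L2 χ) : vL D (i2 χ x) = v2 χ x := rfl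

theorem i2_cont (χ : D →ₐ[ℂ] ℂ) : Continuous (i2 χ) := vL_into _ (v2_cont χ)

/-- `L1 D → C(circle)`, `h ↦ χ ∘ h` -/
noncomputable def ec (χ : D →ₐ[ℂ] ℂ) (hχ : Continuous χ) : L1 D →ₐ[ℂ] C(UnitAddCircle, ℂ) :=
  (cmpC UnitAddCircle χ hχ).comp (vL D)

/-- `C(circle) → L1 D`, `f ↦ f 1` -/
noncomputable def rLG (D : Type) [NormedRing D] [NormedAlgebra ℂ D] : C(UnitAddCircle, ℂ) →ₐ[ℂ] L1 D :=
  (AlgHom.codRestrict (cmpC UnitAddCircle (Algebra.ofId ℂ D) (continuous_algebraMap ℂ D)) (L1s D)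
    (fun f => ⟨f 0, rfl⟩) : C(UnitAddCircle, ℂ) →ₐ[ℂ] ↥(L1s D))

theorem pL_rL (D : Type) [NormedRing D] [NormedAlgebra ℂ D] (f : C(UnitAddCircle, ℂ))
    (t : UnitAddCircle) : pL D t (rLG D f) = algebraMap ℂ D (f t) := rfl

end

end Pool.Agent.PV
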