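import Pool.Agent.helper45.PV.SpecG

set_option autoImplicit false

open scoped Matrix Topology

namespace Pool.Agent.PV

open Pool.Agent.CZ

theorem LFT (hROT : ROT_stmt) : LFT_stmt := by
  intro C D _ _ _ _ φ ι _ _ x
  let g : Matrix ι ι D := (x : Matrix ι ι C).map φ
  let g' : Matrix ι ι D := ((x⁻¹ : (Matrix ι ι C)ˣ) : Matrix ι ι C).map φ
  have hgg : g * g' = 1 := by
    have h : (φ.toRingHom.mapMatrix) ((x : Matrix ι ι C) * ((x⁻¹ : (Matrix ι ι C)ˣ) : Matrix ι ι C)) = 1 := by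
      rw [Units.mul_inv, map_one]
    rw [map_mul] at h
    exact h
  have hgg' : g' * g = 1 := by
    have h : (φ.toRingHom.mapMatrix) (((x⁻¹ : (Matrix ι ι C)ˣ) : Matrix ι ι C) * (x : Matrix ι ι C)) = 1 := by
      rw [Units.inv_mul, map_one]
    rw [map_mul] at h
    exact h
  obtain ⟨hc, h0, h1, W', hW', hW⟩ := hROT D ι g g' hgg hgg'
  let X : (Matrix (ι ⊕ ι) (ι ⊕ ι) C)ˣ :=
    ⟨Matrix.fromBlocks (x : Matrix ι ι C) 0 0 ((x⁻¹ : (Matrix ι ι C)ˣ) : Matrix ι ι C),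
      Matrix.fromBlocks ((x⁻¹ : (Matrix ι ι C)ˣ) : Matrix ι ι C) 0 0 (x : Matrix ι ι C),
      by rw [Matrix.fromBlocks_multiply]; simp, by rw [Matrix.fromBlocks_multiply]; simp⟩
  obtain ⟨Z, hZ1, -, hZ3, -⟩ := unM φ
    (⟨fun s => rotW g g' (s : ℝ), hc.comp continuous_subtype_val⟩ : C(unitInterval, Matrix (ι ⊕ ι) (ι ⊕ ι) D))
    (⟨fun s => W' (s : ℝ), hW'.comp continuous_subtype_val⟩ : C(unitInterval, Matrix (ι ⊕ ι) (ι ⊕ ι) D))
    X 1 (fun s => (hW s).2) (fun s => (hW s).1)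
    (by
      change rotW g g' (((0 : unitInterval) : ℝ)) = _
      rw [Set.Icc.coe_zero, h0]
      exact (map_one (algebraMap ℂ D).mapMatrix).symm)
    (by
      change rotW g g' (((1 : unitInterval) : ℝ)) = _
      rw [Set.Icc.coe_one, h1]
      change _ = (Matrix.fromBlocks (x : Matrix ι ι C) 0 0 ((x⁻¹ : (Matrix ι ι C)ˣ) : Matrix ι ι C)).map φ
      rw [Matrix.fromBlocks_map, Matrix.map_zero φ (map_zero φ)])
  refine ⟨Z, hZ3, ?_⟩
  rw [hZ1]
  change rotW g g' (((0 : unitInterval) : ℝ)) = 1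
  rw [Set.Icc.coe_zero, h0]

end Pool.Agent.PV
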