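import Pool.Agent.helper45.PV.DefsG2

/-!
# Project pv, block G: matrices over the mapping cone and over `L1 D`
-/

set_option autoImplicit false

open scoped Matrix

namespace Pool.Agent.PV

open Pool.Agent.CZ

section

variable {C D : Type} [NormedRing C] [NormedAlgebra ℂ C] [NormedRing D] [NormedAlgebra ℂ D]

variable {ι κ : Type}

/-- a matrix over the mapping cone from a path of matrices, a matrix over `C` and a scalar matrix -/
theorem exM (φ : C →ₐ[ℂ] D) (h : C(unitInterval, Matrix ι κ D)) (g : Matrix ι κ C) (y : Matrix ι κ ℂ)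
    (h0 : h 0 = y.map (algebraMap ℂ D)) (h1 : h 1 = g.map φ) :
    ∃ E : Matrix ι κ (MC φ), (∀ s, E.map (pM φ s) = h s) ∧ E.map (gM φ) = g := by
  have hc : ∀ i j, Continuous fun s => h s i j := fun i j =>
    (continuous_apply j).comp ((continuous_apply i).comp h.continuous)
  have hx : ∀ i j, ∃ x : MC φ, vM φ x = ((⟨fun s => h s i j, hc i j⟩ : C(unitInterval, D)), g i j) :=
    fun i j => vM_ex φ _ (y i j) (congrFun (congrFun h0 i) j) (congrFun (congrFun h1 i) j)
  choose x hx using hx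
  refine ⟨Matrix.of fun i j => x i j, fun s => ?_, ?_⟩
  · refine Matrix.ext fun i j => ?_
    change (vM φ (x i j)).1 s = h s i j
    rw [hx]
    rfl
  · refine Matrix.ext fun i j => ?_
    change (vM φ (x i j)).2 = g i j
    rw [hx]

/-- matrices over the mapping cone are equal if their components are equal -/
theorem extM (φ : C →ₐ[ℂ] D) (E F : Matrix ι κ (MC φ)) (h : ∀ s, E.map (pM φ s) = F.map (pM φ s))
    (h' : E.map (gM φ) = F.map (gM φ)) : E = F := by
  refine Matrix.ext fun i j => ?_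
  exact extM1 φ _ _ (fun s => congrFun (congrFun (h s) i) j) (congrFun (congrFun h' i) j)

/-- the path of matrices over `D` given by a matrix over the mapping cone -/
theorem pthM (φ : C →ₐ[ℂ] D) (E : Matrix ι κ (MC φ)) :
    ∃ h : C(unitInterval, Matrix ι κ D), ∀ s, h s = E.map (pM φ s) := by
  refine ⟨⟨fun s => E.map (pM φ s), ?_⟩, fun s => rfl⟩
  refine continuous_matrix fun i j => ?_
  exact (vM φ (E i j)).1.continuous

/-- the value at `0` is scalar, the value at `1` is the image of the component in `C` -/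
theorem endM (φ : C →ₐ[ℂ] D) (χ : D →ₐ[ℂ] ℂ) (E : Matrix ι κ (MC φ)) :
    E.map (pM φ 0) = (E.map (eM φ χ)).map (algebraMap ℂ D) ∧ E.map (pM φ 1) = (E.map (gM φ)).map φ := by
  constructor
  · refine Matrix.ext fun i j => ?_
    exact MC_eq0 φ χ (E i j)
  · refine Matrix.ext fun i j => ?_
    exact MC_eq1 φ (E i j)

/-- a path of matrices over the mapping cone -/
theorem exPM (φ : C →ₐ[ℂ] D) (H : C(unitInterval × unitInterval, Matrix ι κ D))
    (g : C(unitInterval, Matrix ι κ C)) (y : unitInterval → Matrix ι κ ℂ)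
    (h0 : ∀ t, H (t, 0) = (y t).map (algebraMap ℂ D)) (h1 : ∀ t, H (t, 1) = (g t).map φ) :
    ∃ Γ : C(unitInterval, Matrix ι κ (MC φ)), (∀ t s, (Γ t).map (pM φ s) = H (t, s)) ∧
      ∀ t, (Γ t).map (gM φ) = g t := by
  have hc : ∀ i j, Continuous fun p : unitInterval × unitInterval => H p i j := fun i j =>
    (continuous_apply j).comp ((continuous_apply i).comp H.continuous)
  let K : ι → κ → C(unitInterval × unitInterval, D) := fun i j => ⟨fun p => H p i j, hc i j⟩
  have hx : ∀ t i j, ∃ x : MC φ, vM φ x = ((K i j).curry t, g t i j) := fun t i j =>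
    vM_ex φ _ (y t i j) (congrFun (congrFun (h0 t) i) j) (congrFun (congrFun (h1 t) i) j)
  choose x hx using hx
  refine ⟨⟨fun t => Matrix.of fun i j => x t i j, ?_⟩, fun t s => ?_, fun t => ?_⟩
  · refine continuous_matrix fun i j => ?_
    refine vM_into φ _ ?_
    change Continuous fun t => vM φ (x t i j)
    simp only [hx]
    exact (K i j).curry.continuous.prodMk
      ((continuous_apply j).comp ((continuous_apply i).comp g.continuous))
  · refine Matrix.ext fun i j => ?_
    change (vM φ (x t i j)).1 s = H (t, s) i j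
    rw [hx]
    rfl
  · refine Matrix.ext fun i j => ?_
    change (vM φ (x t i j)).2 = g t i j
    rw [hx]

/-- an invertible matrix over the mapping cone -/
theorem unM [Fintype ι] [DecidableEq ι] (φ : C →ₐ[ℂ] D) (h h' : C(unitInterval, Matrix ι ι D))
    (g : (Matrix ι ι C)ˣ) (y : (Matrix ι ι ℂ)ˣ)
    (hh : ∀ s, h s * h' s = 1) (hh' : ∀ s, h' s * h s = 1)
    (h0 : h 0 = (y : Matrix ι ι ℂ).map (algebraMap ℂ D)) (h1 : h 1 = (g : Matrix ι ι C).map φ) :
    ∃ X : (Matrix ι ι (MC φ))ˣ, (∀ s, (X : Matrix ι ι (MC φ)).map (pM φ s) = h s) ∧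
      (∀ s, ((X⁻¹ : (Matrix ι ι (MC φ))ˣ) : Matrix ι ι (MC φ)).map (pM φ s) = h' s) ∧
      (X : Matrix ι ι (MC φ)).map (gM φ) = g ∧
      ((X⁻¹ : (Matrix ι ι (MC φ))ˣ) : Matrix ι ι (MC φ)).map (gM φ) =
        ((g⁻¹ : (Matrix ι ι C)ˣ) : Matrix ι ι C) := by
  have ey : ((y : Matrix ι ι ℂ).map (algebraMap ℂ D)) *
      (((y⁻¹ : (Matrix ι ι ℂ)ˣ) : Matrix ι ι ℂ).map (algebraMap ℂ D)) = 1 := by
    rw [← Matrix.map_mul, Units.mul_inv]
    exact map_one (algebraMap ℂ D).mapMatrix
  have eg : ((g : Matrix ι ι C).map φ) * (((g⁻¹ : (Matrix ι ι C)ˣ) : Matrix ι ι C).map φ) = 1 := by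
    have := congrArg (φ.toRingHom.mapMatrix) (Units.mul_inv g)
    rw [map_mul, map_one] at this
    exact this
  have h0' : h' 0 = ((y⁻¹ : (Matrix ι ι ℂ)ˣ) : Matrix ι ι ℂ).map (algebraMap ℂ D) := by
    have := congrArg (h' 0 * ·) ey
    simp only [← mul_assoc, mul_one] at this
    rw [← h0, hh', one_mul] at this
    exact this.symm
  have h1' : h' 1 = ((g⁻¹ : (Matrix ι ι C)ˣ) : Matrix ι ι C).map φ := by
    have := congrArg (h' 1 * ·) eg
    simp only [← mul_assoc, mul_one] at this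
    rw [← h1, hh', one_mul] at this
    exact this.symm
  obtain ⟨E, hE, hE'⟩ := exM φ h g y h0 h1
  obtain ⟨F, hF, hF'⟩ := exM φ h' ((g⁻¹ : (Matrix ι ι C)ˣ) : Matrix ι ι C)
    ((y⁻¹ : (Matrix ι ι ℂ)ˣ) : Matrix ι ι ℂ) h0' h1'
  have m1 : ∀ s, (1 : Matrix ι ι (MC φ)).map (pM φ s) = 1 := fun s =>
    map_one (pM φ s).toRingHom.mapMatrix
  have m2 : (1 : Matrix ι ι (MC φ)).map (gM φ) = 1 := map_one (gM φ).toRingHom.mapMatrix
  have p1 : ∀ (A B : Matrix ι ι (MC φ)) (s : unitInterval), (A * B).map (pM φ s) =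
      A.map (pM φ s) * B.map (pM φ s) := fun A B s => map_mul (pM φ s).toRingHom.mapMatrix A B
  have p2 : ∀ (A B : Matrix ι ι (MC φ)), (A * B).map (gM φ) = A.map (gM φ) * B.map (gM φ) :=
    fun A B => map_mul (gM φ).toRingHom.mapMatrix A B
  refine ⟨⟨E, F, ?_, ?_⟩, hE, hF, hE', hF'⟩
  · refine extM φ _ _ (fun s => ?_) ?_
    · rw [p1, hE, hF, hh, m1]
    · rw [p2, hE', hF', m2, Units.mul_inv]
  · refine extM φ _ _ (fun s => ?_) ?_
    · rw [p1, hE, hF, hh', m1]
    · rw [p2, hE', hF', m2, Units.inv_mul]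

/-- a matrix over `L1 D` from a loop of matrices with scalar value at the base point -/
theorem exL (h : C(UnitAddCircle, Matrix ι κ D)) (y : Matrix ι κ ℂ)
    (h0 : h 0 = y.map (algebraMap ℂ D)) :
    ∃ E : Matrix ι κ (L1 D), ∀ t, E.map (pL D t) = h t := by
  have hc : ∀ i j, Continuous fun s => h s i j := fun i j =>
    (continuous_apply j).comp ((continuous_apply i).comp h.continuous)
  have hx : ∀ i j, ∃ x : L1 D, vL D x = (⟨fun s => h s i j, hc i j⟩ : C(UnitAddCircle, D)) :=
    fun i j => vL_ex _ (y i j) (congrFun (congrFun h0 i) j)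
  choose x hx using hx
  refine ⟨Matrix.of fun i j => x i j, fun s => ?_⟩
  refine Matrix.ext fun i j => ?_
  change (vL D (x i j)) s = h s i j
  rw [hx]
  rfl

/-- matrices over `L1 D` are equal if their values are equal -/
theorem extL (E F : Matrix ι κ (L1 D)) (h : ∀ t, E.map (pL D t) = F.map (pL D t)) : E = F := by
  refine Matrix.ext fun i j => ?_
  exact extL1 _ _ fun t => congrFun (congrFun (h t) i) j

/-- the loop of matrices given by a matrix over `L1 D` -/
theorem pthL (E : Matrix ι κ (L1 D)) :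
    ∃ h : C(UnitAddCircle, Matrix ι κ D), ∀ t, h t = E.map (pL D t) := by
  refine ⟨⟨fun s => E.map (pL D s), ?_⟩, fun s => rfl⟩
  refine continuous_matrix fun i j => ?_
  exact (vL D (E i j)).continuous

/-- the value at the base point is scalar -/
theorem endL (χ : D →ₐ[ℂ] ℂ) (E : Matrix ι κ (L1 D)) :
    E.map (pL D 0) = (E.map (eL χ)).map (algebraMap ℂ D) := by
  refine Matrix.ext fun i j => ?_
  exact L1_eq χ (E i j)

/-- the image of a matrix over `L1 D` in the mapping cone -/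
theorem jmM (φ : C →ₐ[ℂ] D) (χ : D →ₐ[ℂ] ℂ) (E : Matrix ι κ (L1 D)) :
    (∀ s : unitInterval, (E.map (jm φ χ)).map (pM φ s) = E.map (pL D ((s : ℝ) : UnitAddCircle))) ∧
      (E.map (jm φ χ)).map (gM φ) = (E.map (eL χ)).map (algebraMap ℂ C) :=
  ⟨fun _ => rfl, rfl⟩

/-- the value of the loop of matrices -/
theorem evM_val (E : Matrix ι ι (L1 D)) (t : UnitAddCircle) :
    evM (E.map (vL D)) t = E.map (pL D t) := rfl

end

end Pool.Agent.PV
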