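import Pool.Agent.helper45.PV.SpecG

set_option autoImplicit false

open scoped Matrix Topology

namespace Pool.Agent.PV

open Pool.Agent.CZ

theorem MK1 (hK1A : K1A_stmt) (hK1D : K1D_stmt) (hK1E : K1E_stmt) : MK1_stmt := by
  intro C D _ _ _ _ _ _ φ χ hφ hχ hinj hK z
  obtain ⟨ι, _, _, X, hz, hX⟩ := hK1A C D φ χ hφ hχ hinj z
  obtain ⟨X', h1, h2, h3⟩ := hK1D C D φ χ ι X hX
  rw [hz, ← h1]
  exact hK1E C D φ χ hφ hχ hK ι X' h2 h3

end Pool.Agent.PV
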