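import Pool.Agent.helper45.PV.SpecG

set_option autoImplicit false

open scoped Matrix Topology

namespace Pool.Agent.PV

open Pool.Agent.CZ

theorem SCLb (hCIN : CIN_stmt) (hGLC : GLC_stmt) (hSCP : SCP_stmt) : SCL_stmt := by
  intro C D _ _ _ _ φ ι _ _ y
  obtain ⟨γ, hγ, h0, h1⟩ := hGLC ι y
  obtain ⟨γ', hγ'⟩ := hCIN ℂ unitInterval ι γ hγ
  have hcont : Continuous fun A : Matrix ι ι ℂ => A.map (algebraMap ℂ D) :=
    continuous_id.matrix_map (continuous_algebraMap ℂ D)
  have hm : ∀ A B : Matrix ι ι ℂ, (A * B).map (algebraMap ℂ D) =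
      A.map (algebraMap ℂ D) * B.map (algebraMap ℂ D) := fun A B =>
    map_mul (algebraMap ℂ D).mapMatrix A B
  have ho : (1 : Matrix ι ι ℂ).map (algebraMap ℂ D) = 1 := map_one (algebraMap ℂ D).mapMatrix
  obtain ⟨Y, hY1, -, hY3, -⟩ := unM φ
    (⟨fun s => (γ s).map (algebraMap ℂ D), hcont.comp γ.continuous⟩ : C(unitInterval, Matrix ι ι D))
    (⟨fun s => (γ' s).map (algebraMap ℂ D), hcont.comp γ'.continuous⟩ : C(unitInterval, Matrix ι ι D))
    1 y
    (fun s => by
      change (γ s).map (algebraMap ℂ D) * (γ' s).map (algebraMap ℂ D) = 1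
      rw [← hm, (hγ' s).1, ho])
    (fun s => by
      change (γ' s).map (algebraMap ℂ D) * (γ s).map (algebraMap ℂ D) = 1
      rw [← hm, (hγ' s).2, ho])
    (by
      change (γ 0).map (algebraMap ℂ D) = _
      rw [h0])
    (by
      change (γ 1).map (algebraMap ℂ D) = _
      rw [h1]
      change (1 : Matrix ι ι ℂ).map (algebraMap ℂ D) = (1 : Matrix ι ι C).map φ
      rw [ho]
      exact (map_one φ.toRingHom.mapMatrix).symm)
  refine ⟨Y, ?_, ?_, ?_⟩
  · rw [hY3]
    rfl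
  · rw [hY1]
    change (γ 0).map (algebraMap ℂ D) = _
    rw [h0]
  · refine hSCP C D φ ι γ hγ ?_ Y (fun s => hY1 s) ?_
    · rw [h1]
      rfl
    · rw [hY3]
      rfl

end Pool.Agent.PV
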