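import Pool.Agent.helper77.PV.SpecA
import Pool.Agent.helper45.PV.DefsG
import Pool.Agent.helper45.PV.MK

/-!
# Project pv (MP_376aaf_an), block G, half 2: mapping cone, suspension, wedge. Rows pvg:*

RULES. One file per row: `Pool/Agent/<seat>/PV/XXX.lean`, `import Pool.Agent.helper45.PV.SpecG`, `namespace Pool.Agent.PV`,
auxiliary lemmas prefixed `XXX_`. Theorem line: `theorem XXX (hYYY : YYY_stmt) .. : XXX_stmt` (the hypotheses allowed are
listed in the docstring as (from YYY, ZZZ), in this order; rows wait for nobody). No double quotes, no `convert` / `congr!`.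
The proof of every row is in its docstring.

Notation. For a matrix `E` over `MC φ`: `E.map (pM φ s)` is the value of its path at `s`, `E.map (gM φ)` its component over `C`.
The lemmas `exM`, `extM`, `pthM`, `endM`, `exPM`, `unM`, `exL`, `extL`, `pthL`, `endL`, `jmM` (file MK.lean) build and compare
matrices over `MC φ` and `L1 D`; the lemmas `vL_*`, `vM_*`, `v2_*`, `*_cont` (DefsG2.lean) do the same for elements; use them
instead of unfolding (`L1 D`, `MC φ`, `L2 χ` are types with their own instances; `L1s`, `MCs`, `L2s` the subalgebras). `E.map φ` for a homomorphism `φ` is multiplicative: `Matrix.map_mul`.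
0-1 matrices have the same form over every ring (`map` of `fromBlocks`, `0`, `1`: `Matrix.fromBlocks_map`).
-/

set_option autoImplicit false

open scoped Matrix Topology
open Filter

namespace Pool.Agent.PV

open Pool.Agent.CZ

/-- `de` is a holonomy homomorphism (first property in `HOL_stmt`) -/
def IsHol (B : Type) [NormedRing B] [NormedAlgebra ℂ B] (de : K0 C(UnitAddCircle, B) →+ K1 B) : Prop :=
  ∀ (ι : Type) [Fintype ι] [DecidableEq ι] (E : Matrix ι ι C(UnitAddCircle, B)) (hE : E * E = E)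
    (V V' : C(unitInterval, Matrix ι ι B)) (g : (Matrix ι ι B)ˣ), Hol E V V' →
    (g : Matrix ι ι B) = V 1 + (1 - evM E 0) → de (k0 E hE) = k1 g

/-- `be` is a Bott homomorphism (first property in `BOT_stmt`) -/
def IsBeG (B : Type) [NormedRing B] [NormedAlgebra ℂ B] (be : K0 B →+ K1 C(UnitAddCircle, B)) : Prop :=
  ∀ (ι : Type) [Fintype ι] [DecidableEq ι] (e : Matrix ι ι B) (he : e * e = e)
    (g : (Matrix ι ι C(UnitAddCircle, B))ˣ), (g : Matrix ι ι C(UnitAddCircle, B)) =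
      zl B • e.map (cl B) + (1 - e.map (cl B)) → be (k0 e he) = k1 g

/-! ## Basic rows -/

/-- ROW pvg:LOP (short). `qI` is a continuous surjection from a compact space onto a Hausdorff space, so a quotient map; `p` factors through it: if `(s : circle) = (t : circle)` and `s ≠ t` then `{s, t} = {0, 1}`.
(`Topology.IsQuotientMap.lift`, or `AddCircle.liftIco_continuous`.) -/
def LOP_stmt : Prop := ∀ (Z : Type) [TopologicalSpace Z] (p : C(unitInterval, Z)), p 0 = p 1 →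
  ∃ q : C(UnitAddCircle, Z), ∀ s : unitInterval, q ((s : ℝ) : UnitAddCircle) = p s

/-- ROW pvg:CPL (short). All three are closed subalgebras of complete algebras: the set of the scalars `algebraMap ℂ D c` is closed in `D` (range of a linear map on a finite dimensional space:
`Submodule.closed_of_finiteDimensional`), evaluations, `φ` and `χ` are continuous. For `L2`: `∃ c, ∀ t, χ (h t) = c` iff `∀ t, χ (h t) = χ (h 0)`. -/
def CPL_stmt : Prop := (∀ (D : Type) [NormedRing D] [NormedAlgebra ℂ D] [CompleteSpace D], CompleteSpace (L1 D)) ∧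
  (∀ (C D : Type) [NormedRing C] [NormedAlgebra ℂ C] [CompleteSpace C] [NormedRing D] [NormedAlgebra ℂ D] [CompleteSpace D]
    (φ : C →ₐ[ℂ] D), Continuous φ.toRingHom → CompleteSpace (MC φ)) ∧
  ∀ (D : Type) [NormedRing D] [NormedAlgebra ℂ D] [CompleteSpace D] (χ : D →ₐ[ℂ] ℂ), Continuous χ →
    CompleteSpace (L2 χ)

/-- ROW pvg:CIN (short). `Ring.inverse` is continuous at units (`NormedRing.inverse_continuousAt`) in the Banach algebra of matrices
(local instances `Matrix.linftyOpNormedRing`, `Matrix.linftyOpNormedAlgebra`; the topology is the same). -/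
def CIN_stmt : Prop := ∀ (A K ι : Type) [NormedRing A] [NormedAlgebra ℂ A] [CompleteSpace A] [TopologicalSpace K] [Fintype ι]
  [DecidableEq ι] (γ : C(K, Matrix ι ι A)), (∀ t, IsUnit (γ t)) →
  ∃ γ' : C(K, Matrix ι ι A), ∀ t, γ t * γ' t = 1 ∧ γ' t * γ t = 1

/-- ROW pvg:IDC (short; from PTH). Idempotent complex matrices joined by a path of idempotents are conjugate: PTH for `R = Matrix ι ι ℂ` (local instances `Matrix.linftyOpNormedRing`,
`Matrix.linftyOpNormedAlgebra`; complete), `y = (W 1)⁻¹`: `p 1 * W 1 = W 1 * p 0`, so take `y = W 1`: `W 1 * p 0 = p 1 * W 1`. -/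
def IDC_stmt : Prop := ∀ (ι : Type) [Fintype ι] [DecidableEq ι] (p : C(unitInterval, Matrix ι ι ℂ)), (∀ s, p s * p s = p s) →
  ∃ y : (Matrix ι ι ℂ)ˣ, (y : Matrix ι ι ℂ) * p 0 = p 1 * y

/-- ROW pvg:LFT (short; from ROT). Lift of `x ⊕ x⁻¹` to the mapping cone: `unM` with `h s = rotW (φ x) (φ x⁻¹) s` (ROT for `D`), `h' = W'`, `g = x ⊕ x⁻¹`, `y = 1`. (`x.map φ` is invertible with inverse `x⁻¹.map φ`; restrict the paths from
`ℝ` to the unit interval.) -/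
def LFT_stmt : Prop := ∀ (C D : Type) [NormedRing C] [NormedAlgebra ℂ C] [NormedRing D] [NormedAlgebra ℂ D] (φ : C →ₐ[ℂ] D)
  (ι : Type) [Fintype ι] [DecidableEq ι] (x : (Matrix ι ι C)ˣ), ∃ X : (Matrix (ι ⊕ ι) (ι ⊕ ι) (MC φ))ˣ,
    (X : Matrix (ι ⊕ ι) (ι ⊕ ι) (MC φ)).map (gM φ) =
      Matrix.fromBlocks (x : Matrix ι ι C) 0 0 ((x⁻¹ : (Matrix ι ι C)ˣ) : Matrix ι ι C) ∧
    (X : Matrix (ι ⊕ ι) (ι ⊕ ι) (MC φ)).map (pM φ 0) = 1

/-- ROW pvg:SCP (short-medium; from CIN, K1M). A path of invertible complex matrices ending at 1 has class 0 in `K₁(MC φ)`. Proof: `Htp X 1` by the path `Γ t` of `exPM` with `H (t, s) = (y σ).map (algebraMap ℂ D)`, `σ = 1 - (1-s)(1-t)`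
(in the unit interval: `unitInterval.symm (unitInterval.symm s * unitInterval.symm t)`), `g t = 1`, scalar matrix at `s = 0`: `y t`; `σ = s` for `t = 0`, `σ = 1` for `t = 1` or `s = 1`. `Γ t` is invertible: same construction (`unM`) with the inverse path of `y` (CIN for `A = ℂ`). `Γ 0 = X`, `Γ 1 = 1` by `extM`. K1M. -/
def SCP_stmt : Prop := ∀ (C D : Type) [NormedRing C] [NormedAlgebra ℂ C] [NormedRing D] [NormedAlgebra ℂ D] (φ : C →ₐ[ℂ] D)
  (ι : Type) [Fintype ι] [DecidableEq ι] (y : C(unitInterval, Matrix ι ι ℂ)), (∀ s, IsUnit (y s)) → y 1 = 1 →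
  ∀ X : (Matrix ι ι (MC φ))ˣ, (∀ s, (X : Matrix ι ι (MC φ)).map (pM φ s) = (y s).map (algebraMap ℂ D)) →
    (X : Matrix ι ι (MC φ)).map (gM φ) = 1 → k1 X = 0

/-- ROW pvg:SCL (short; from CIN, GLC, SCP). `GLC`: a path `γ` of invertible complex matrices from `y` to 1; inverse path by CIN (`A = ℂ`); `unM` with `h s = (γ s).map (algebraMap ℂ D)`, `g = 1`; the class is 0 by SCP. -/
def SCL_stmt : Prop := ∀ (C D : Type) [NormedRing C] [NormedAlgebra ℂ C] [NormedRing D] [NormedAlgebra ℂ D] (φ : C →ₐ[ℂ] D)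
  (ι : Type) [Fintype ι] [DecidableEq ι] (y : (Matrix ι ι ℂ)ˣ), ∃ Y : (Matrix ι ι (MC φ))ˣ,
    (Y : Matrix ι ι (MC φ)).map (gM φ) = 1 ∧
    (Y : Matrix ι ι (MC φ)).map (pM φ 0) = (y : Matrix ι ι ℂ).map (algebraMap ℂ D) ∧ k1 Y = 0

/-- ROW pvg:LPM (short-medium; from LOP). An idempotent matrix over `MC φ` whose path starts and ends at the 0-1 matrix `P` and whose component over `C` is `P` comes from a loop: `E = F.map jm`. Proof: `pthM`, LOP give a loop `q` of matrices with `q(s) = E(s)`;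
`exL` (with the scalar matrix `P`) gives `F`; `extM`: `(F.map jm).map (pM φ s) = q(s)`, and the component over `C` is `(F.map (eL χ)).map (algebraMap ℂ C)` with `F.map (eL χ) = P` (apply `χ` to the value at `0`: `χ (algebraMap z) = z`). `F * F = F` by `extL`
(every point of the circle is the image of a point of the unit interval). Here `P = Q.map (algebraMap ℂ _)` for a complex matrix `Q`. -/
def LPM_stmt : Prop := ∀ (C D : Type) [NormedRing C] [NormedAlgebra ℂ C] [NormedRing D] [NormedAlgebra ℂ D] (φ : C →ₐ[ℂ] D)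
  (χ : D →ₐ[ℂ] ℂ) (ι : Type) [Fintype ι] [DecidableEq ι] (E : Matrix ι ι (MC φ)) (Q : Matrix ι ι ℂ),
  E.map (pM φ 0) = Q.map (algebraMap ℂ D) → E.map (pM φ 1) = Q.map (algebraMap ℂ D) →
  E.map (gM φ) = Q.map (algebraMap ℂ C) → ∃ F : Matrix ι ι (L1 D), F.map (jm φ χ) = E ∧ F.map (eL χ) = Q ∧
    F.map (pL D 0) = Q.map (algebraMap ℂ D) ∧ (E * E = E → F * F = F)

/-! ## The mapping cone, `K₀` -/

/-- ROW pvg:ONT (medium; from FUN, K0E, K0B, K0G, K0C, K0D, IDC, LFT, SCL, LPM). `K₀(L1 D) → K₀(MC φ)` is onto. Proof. By K0G and FUN (`unitCls` is in the image) it is enough to treat `z = [E]`, `E` over `Fin n`. `g = E.map (gM φ)`: `[g] = a [1]`, `a ∈ ℤ`. Choose `b ∈ ℕ` with `d = a + b ≥ 0`.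
Over `J = (Fin n ⊕ Fin b) ⊕ Fin d`: `E₁ = fromBlocks (fromBlocks E 0 0 1) 0 0 0`, `[E₁] = [E] + b[1]`, `P₁ = fromBlocks 0 0 0 1`, `[P₁] = d[1]` (K0B). Over `C` the component `g₁` of `E₁` has the class `a[1] + b[1] = [P₁]`: K0C gives `k`, `l`, `x` invertible over `C` with `x (pad g₁ k l) = (pad P₁ k l) x`.
`E₂ = pad E₁ k l`, `P₂ = pad P₁ k l` over `ι₂`. LFT: `X` over `ι₂ ⊕ ι₂`; `E₃ = X (E₂ ⊕ 0) X⁻¹`; its component over `C` is `(x g₂ x⁻¹) ⊕ 0 = P₂ ⊕ 0 =: P`; `p(s) = χ(E₃(s))` is a path of complex idempotent matrices with `E₃(0) = p(0)` scalar (`endM`), `p(1) = P`: IDC gives `y` with `y p(0) = P y`;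
SCL: `Y`; `E₄ = Y E₃ Y⁻¹` starts and ends at `P` (`Y(1) = φ(1) = 1`) and has component `P`. LPM: `E₄ = F.map jm`. `[E₄] = [E₃] = [E₂] = [E₁] + k[1] = [E] + (b + k)[1]` (K0E for conjugates: `x = g e`, `y = g⁻¹`; K0D, K0B). -/
def ONT_stmt : Prop := ∀ (C D : Type) [NormedRing C] [NormedAlgebra ℂ C] [CompleteSpace C] [NormedRing D] [NormedAlgebra ℂ D]
  [CompleteSpace D] (φ : C →ₐ[ℂ] D) (χ : D →ₐ[ℂ] ℂ), Continuous φ.toRingHom → Continuous χ →
  (∀ z : K0 C, ∃ n : ℤ, z = n • unitCls C) → ∀ z : K0 (MC φ), ∃ x : K0 (L1 D), z = k0map (jm φ χ).toRingHom x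

/-- ROW pvg:KR1 (medium; from FUN, K0E, K0B, K1M, K1B, K1G, LFT, LPM). The image of `K₁(C)` dies in `K₀(MC φ)`. Proof. K1G: `y = k1 u`, `u` over `Fin n`. LFT: `X` over `Fin n ⊕ Fin n`, `X(0) = 1`, component `u ⊕ u⁻¹`. `P = fromBlocks 1 0 0 0`. `E = X P X⁻¹` over `MC φ`: starts at `P`, component over `C` is `P`, ends at `φ(P) = P`.
LPM: `F` over `L1 D`, `F.map jm = E`, `F(0) = P`. `x = [F] - n[1]`. `eL`: `[P] - n[1] = 0` (K0B). `jm`: `[E] = [P] = n[1]` (K0E: conjugate). Holonomy: `V s = X(s) P`, `V' s = P X(s)⁻¹` (continuous: `pthM` for `X`, `X⁻¹`) satisfy `Hol (F.map val) V V'`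
(`(F.map val)(s) = X(s) P X(s)⁻¹`), `V 1 + (1 - P) = fromBlocks φ(u) 0 0 1`, so `de [F] = k1 (φ u) + k1 1 = k1map φ y` (K1B, K1M). `de (unitCls) = 0`: `V = V' = 1`. -/
def KR1_stmt : Prop := ∀ (C D : Type) [NormedRing C] [NormedAlgebra ℂ C] [CompleteSpace C] [NormedRing D] [NormedAlgebra ℂ D]
  [CompleteSpace D] (φ : C →ₐ[ℂ] D) (χ : D →ₐ[ℂ] ℂ) (hφ : Continuous φ.toRingHom), Continuous χ →
  ∀ de : K0 C(UnitAddCircle, D) →+ K1 D, IsHol D de → ∀ y : K1 C, ∃ x : K0 (L1 D),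
    k0map (eL χ).toRingHom x = 0 ∧ k0map (jm φ χ).toRingHom x = 0 ∧
    de (k0map (vL D).toRingHom x) = k1map φ.toRingHom hφ y

/-- ROW pvg:KR2 (medium; from FUN, K0E, K0B, K0G, K0C, K0D, K1M, KC). Nothing else dies. Proof. K0G: `x = [H] - m[1]`, `H` over `Fin n`. Over `J = Fin n ⊕ Fin m`: `H₁ = fromBlocks H 0 0 0`, `P₁ = fromBlocks 0 0 0 1`. `eL_* x = 0`: `[H₁.map eL] = m[1] = [P₁]` in `K₀(ℂ)`; K0C over `ℂ`: `c (pad (H₁.map eL) k l) = (pad P₁ k l) c`.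
`H₂ = c (pad H₁ k l) c⁻¹` (constant `c`), `P₂ = pad P₁ k l`: `H₂.map eL = P₂`, `[H₂] = [H] + k[1]`. `jm_*[H₂] = (m + k)[1] = [P₂]` (K0D, K0B); K0C over `MC φ`: `X (pad (H₂.map jm) k' l') = (pad P₂ k' l') X`. `H₃ = pad H₂ k' l'`, `P₃ = pad P₂ k' l'`: `H₃(0) = P₃`, `X(s) H₃(s) = P₃ X(s)`, component `x` of `X`: `x P₃ = P₃ x`
(the component of `H₃.map jm` over `C` is `P₃`), `X(0) P₃ = P₃ X(0)`, `X(0)` is a scalar matrix `c₀` (`endM`; `c₀ = X.map (eM φ χ)` invertible over `ℂ`), `X(1) = φ(x)`. `V s = X(s)⁻¹ X(0) P₃`, `V' s = P₃ X(0)⁻¹ X(s)`: `Hol (H₃.map val) V V'`.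
`V 1 + (1 - P₃) = φ(x⁻¹ P₃ + 1 - P₃) * (c₀ P₃ + 1 - P₃)`, both factors invertible (`x P₃ + 1 - P₃`, `c₀⁻¹ P₃ + 1 - P₃`); the class of the second is the image of an element of `K₁(ℂ) = 0`. So `de [H₃] = k1map φ (k1 (x⁻¹ P₃ + 1 - P₃))`, `de (unitCls) = 0` (`V = V' = 1`), `de (val_* x) = de [H₃]`. -/
def KR2_stmt : Prop := ∀ (C D : Type) [NormedRing C] [NormedAlgebra ℂ C] [CompleteSpace C] [NormedRing D] [NormedAlgebra ℂ D]
  [CompleteSpace D] (φ : C →ₐ[ℂ] D) (χ : D →ₐ[ℂ] ℂ) (hφ : Continuous φ.toRingHom), Continuous χ →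
  ∀ de : K0 C(UnitAddCircle, D) →+ K1 D, IsHol D de → ∀ x : K0 (L1 D), k0map (eL χ).toRingHom x = 0 →
    k0map (jm φ χ).toRingHom x = 0 → ∃ y : K1 C, de (k0map (vL D).toRingHom x) = k1map φ.toRingHom hφ y

/-- ROW pvg:S1S (short). `Split` for `L1 D ⊆ C(circle, D)`, evaluation at the base point, constant loops. -/
def S1S_stmt : Prop := ∀ (D : Type) [NormedRing D] [NormedAlgebra ℂ D], Split (vL D) (el D) (cl D)

/-- ROW pvg:LC1 (short; from FUN, SX0, CPL, S1S). `x ↦ de (val_* x)` is bijective from the kernel of `eL` to `K₁(D)`. (a) `el ∘ val = κ ∘ eL`, `κ = algebraMap : ℂ → D` (`L1_eq`), so `el_* val_* x = 0`, so `val_* x = 0`, and `x = 0` by SX0 (second part, `y = 0`). (b) `z` with `el_* z = 0`, `de z = y`; SX0: `z = val_* x + cl_* y'`, `χ_* y' = 0`. Apply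
`el_*`: `0 = κ_* eL_* x + y'`; apply `χ_*` (`χ κ = id`): `eL_* x = 0`, so `y' = 0`. -/
def LC1_stmt : Prop := ∀ (D : Type) [NormedRing D] [NormedAlgebra ℂ D] [CompleteSpace D] (χ : D →ₐ[ℂ] ℂ), Continuous χ →
  ∀ de : K0 C(UnitAddCircle, D) →+ K1 D, (∀ z, k0map (el D).toRingHom z = 0 → de z = 0 → z = 0) →
  (∀ y : K1 D, ∃ z, k0map (el D).toRingHom z = 0 ∧ de z = y) →
  (∀ x : K0 (L1 D), k0map (eL χ).toRingHom x = 0 → de (k0map (vL D).toRingHom x) = 0 → x = 0) ∧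
  ∀ y : K1 D, ∃ x : K0 (L1 D), k0map (eL χ).toRingHom x = 0 ∧ de (k0map (vL D).toRingHom x) = y

/-- ROW pvg:MK0 (short-medium; from FUN, HOL, LC1, ONT, KR1, KR2). `T y = jm_* x`, `x` the unique element with `eL_* x = 0`, `de (val_* x) = y` (LC1; additive by uniqueness). `eM ∘ jm = eL`. Range: `z` with `eM_* z = 0` is `jm_* x` (ONT), `eL_* x = 0`. Kernel: KR1 and uniqueness, KR2. -/
def MK0_stmt : Prop := ∀ (C D : Type) [NormedRing C] [NormedAlgebra ℂ C] [CompleteSpace C] [NormedRing D] [NormedAlgebra ℂ D]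
  [CompleteSpace D] (φ : C →ₐ[ℂ] D) (χ : D →ₐ[ℂ] ℂ) (hφ : Continuous φ.toRingHom), Continuous χ →
  (∀ z : K0 C, ∃ n : ℤ, z = n • unitCls C) →
  ∃ T : K1 D →+ K0 (MC φ), T.range = (k0map (eM φ χ).toRingHom).ker ∧ T.ker = (k1map φ.toRingHom hφ).range

/-! ## The mapping cone, `K₁` -/

/-- ROW pvg:K1A (medium; from FUN, K1M, K1B, K1G, K1Z, KC, CIN). Make the component over `C` equal to 1. Proof. `z = k1 X₀`, `X₀` over `Fin n` (K1G), `x` the component over `C`. `φ_* [x] = [X₀(1)] = [X₀(0)]` (K1M: `pthM` is a path of invertible matrices) `= 0` (`X₀(0)` is the image of the complex invertible matrix `X₀.map (eM φ χ)`, KC). So `[x] = 0`;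
K1Z: `k`, `ξ : C(unitInterval, ..)` of invertible matrices from `x' = x ⊕ 1_k` to 1; `ξ'` the inverse path (CIN). `Z` over `MC φ` by `unM`: `h s = φ(ξ(1-s))`, `g = x'`, `y = 1`. `[Z] = 0`: the path `Γ t` of `exPM` with `H(t, s) = φ(ξ(1 - s(1-t)))`, `g t = ξ t`, `y t = 1` from `Z` to 1 (invertible by `unM` with `ξ'`). `X = (X₀ ⊕ 1_k) Z⁻¹`. -/
def K1A_stmt : Prop := ∀ (C D : Type) [NormedRing C] [NormedAlgebra ℂ C] [CompleteSpace C] [NormedRing D] [NormedAlgebra ℂ D]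
  [CompleteSpace D] (φ : C →ₐ[ℂ] D) (χ : D →ₐ[ℂ] ℂ) (hφ : Continuous φ.toRingHom), Continuous χ →
  Function.Injective (k1map φ.toRingHom hφ) → ∀ z : K1 (MC φ), ∃ (ι : Type) (_ : Fintype ι) (_ : DecidableEq ι)
    (X : (Matrix ι ι (MC φ))ˣ), z = k1 X ∧ (X : Matrix ι ι (MC φ)).map (gM φ) = 1

/-- ROW pvg:K1D (short; from K1M, SCL). `y = X.map (eM φ χ)` is invertible over `ℂ`, `X(0) = y` (`endM`); `Y` of SCL for `y`; `X' = Y⁻¹ X`. -/
def K1D_stmt : Prop := ∀ (C D : Type) [NormedRing C] [NormedAlgebra ℂ C] [NormedRing D] [NormedAlgebra ℂ D] (φ : C →ₐ[ℂ] D)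
  (χ : D →ₐ[ℂ] ℂ) (ι : Type) [Fintype ι] [DecidableEq ι] (X : (Matrix ι ι (MC φ))ˣ),
  (X : Matrix ι ι (MC φ)).map (gM φ) = 1 → ∃ X' : (Matrix ι ι (MC φ))ˣ, k1 X' = k1 X ∧
    (X' : Matrix ι ι (MC φ)).map (gM φ) = 1 ∧ (X' : Matrix ι ι (MC φ)).map (pM φ 0) = 1

/-- ROW pvg:K1E (medium; from FUN, K0B, K1M, SX1, BOT, CPL, S1S, SCP, LPM). Proof. `X(0) = X(1) = 1`, component 1: LPM (`Q = 1`) for `X` and `X⁻¹`: `F`, `F'` over `L1 D`, `F F' = 1 = F' F` (`extL`), so `X = F.map jm`, `F` invertible, `F.map (pL D 0) = 1`. `w = val_* [F]` in `K₁(C(circle, D))`: `el_* w = [1] = 0`, so by BOT `w = be (d w)`, `d w = a [1]`, `be [1] = [z]`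
(`1 × 1` matrix: `unitCls = k0 1`, K0B; `zl • 1 + 0`), `[z] = val_* [z']`, `z'` the loop `zl` as an invertible element (`1 × 1` matrix) of `L1 D`. SX1 (`Split` S1S; `y = 0`): `[F] = a [z']`. `jm_* [z'] = 0` by SCP with the path `s ↦ fourier 1 s` (`1 × 1`). So `k1 X = jm_* [F] = 0`. -/
def K1E_stmt : Prop := ∀ (C D : Type) [NormedRing C] [NormedAlgebra ℂ C] [CompleteSpace C] [NormedRing D] [NormedAlgebra ℂ D]
  [CompleteSpace D] (φ : C →ₐ[ℂ] D) (χ : D →ₐ[ℂ] ℂ), Continuous φ.toRingHom → Continuous χ →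
  (∀ z : K0 D, ∃ n : ℤ, z = n • unitCls D) → ∀ (ι : Type) [Fintype ι] [DecidableEq ι] (X : (Matrix ι ι (MC φ))ˣ),
  (X : Matrix ι ι (MC φ)).map (gM φ) = 1 → (X : Matrix ι ι (MC φ)).map (pM φ 0) = 1 → k1 X = 0

/-- ROW pvg:MK1 (short; from K1A, K1D, K1E). -/
def MK1_stmt : Prop := ∀ (C D : Type) [NormedRing C] [NormedAlgebra ℂ C] [CompleteSpace C] [NormedRing D] [NormedAlgebra ℂ D]
  [CompleteSpace D] (φ : C →ₐ[ℂ] D) (χ : D →ₐ[ℂ] ℂ) (hφ : Continuous φ.toRingHom), Continuous χ →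
  Function.Injective (k1map φ.toRingHom hφ) → (∀ z : K0 D, ∃ n : ℤ, z = n • unitCls D) →
  ∀ z : K1 (MC φ), z = 0

/-! ## The suspension -/

/-- ROW pvg:S2S (short). `Split` for `L2 χ ⊆ L1 D`. -/
def S2S_stmt : Prop := ∀ (D : Type) [NormedRing D] [NormedAlgebra ℂ D] (χ : D →ₐ[ℂ] ℂ) (hχ : Continuous χ),
  Split (i2 χ) (ec χ hχ) (rLG D)

/-- ROW pvg:S20 (short; from FUN, SX0, HOL, CPL, LC1, S2S). `z ∈ K₀(L2 χ)`, `e2_* z = 0`. `e2 = eL ∘ i2`; so `x = i2_* z` has `eL_* x = 0` and `de (val_* x) ∈ K₁(D) = 0`, so `x = 0` (LC1 with `de` of HOL); SX0 for S2S (second part, `y = 0`, with the character `el ℂ` of `C(circle)`): `z = 0`. -/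
def S20_stmt : Prop := ∀ (D : Type) [NormedRing D] [NormedAlgebra ℂ D] [CompleteSpace D] (χ : D →ₐ[ℂ] ℂ), Continuous χ →
  (∀ y : K1 D, y = 0) → ∀ z : K0 (L2 χ), k0map (e2 χ).toRingHom z = 0 → z = 0

/-- ROW pvg:BNT (short-medium; from FUN, K0G, K0B). Naturality of the Bott map for `χ : D → ℂ`. K0G: enough for `z = k0 e` (`unitCls = k0 1`). `g = z e + 1 - e` is invertible over `C(circle, D)` with inverse `z⁻¹ e + 1 - e` (`zU`, `zi`); its image under `χ` is `z χ(e) + 1 - χ(e)`. -/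
def BNT_stmt : Prop := ∀ (D : Type) [NormedRing D] [NormedAlgebra ℂ D] (χ : D →ₐ[ℂ] ℂ) (hχ : Continuous χ)
  (hc : Continuous (cmpC UnitAddCircle χ hχ).toRingHom) (be : K0 D →+ K1 C(UnitAddCircle, D))
  (be' : K0 ℂ →+ K1 C(UnitAddCircle, ℂ)), IsBeG D be → IsBeG ℂ be' → ∀ z : K0 D,
    k1map (cmpC UnitAddCircle χ hχ).toRingHom hc (be z) = be' (k0map χ.toRingHom z)

/-- ROW pvg:S21 (short-medium; from FUN, SX1, BOT, KC, CPL, S1S, S2S, BNT). `y ↦ d (val_* i2_* y)` is an isomorphism of `K₁(L2 χ)` onto the kernel of `χ_*`. `w = val_* i2_* y`: `el_* w` factors through `K₁(ℂ) = 0`, so `w = be (d w)` (BOT); `χ ∘ h` is constant for `h ∈ L2 χ`, so `(cmpC χ)_* w` factors through `K₁(ℂ) = 0`: `be' (χ_* d w) = 0` (BNT),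
`χ_* d w = 0` (`d' be' = id`). Injective: `val_*` and `i2_*` are injective (SX1 for S1S, S2S). Onto: `χ_* v = 0`, `w = be v`, `el_* w = 0`. SX1 (S1S): `w = val_* y₁ + cl_* y₂`, apply `el_*`: `y₂ = 0`. SX1 (S2S): `y₁ = i2_* y + rL_* y₃`; apply `ec_*`: `y₃ = ec_* y₁ = (cmpC χ)_* w = be' (χ_* v) = 0`. -/
def S21_stmt : Prop := ∀ (D : Type) [NormedRing D] [NormedAlgebra ℂ D] [CompleteSpace D] (χ : D →ₐ[ℂ] ℂ), Continuous χ →
  Nonempty (K1 (L2 χ) ≃+ (k0map χ.toRingHom).ker)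

/-! ## Spaces -/

/-- ROW pvg:MCS (medium; from SUB). The mapping cone as a space. `Z = unitInterval × X`, `R` = the closed star subalgebra of the `h` with `h(0, ·)` constant and `h(1, x) = h(1, x')` whenever `f x = f x'`. SUB: `Y`, `p : Z → Y` onto (so `Y` is path connected), `y = p(0, x₀)`. `Θ h = (s ↦ x ↦ h(p(s,x)), g)`, `g` the unique continuous function with
`g(f x) = h(p(1,x))` (`f` is a quotient map: continuous onto, compact to Hausdorff). Inverse: `(a, g) ↦` the `h` with `h ∘ p = ` uncurried `a` (in `R`). Both are additive, multiplicative, unital; `‖Θ h‖ = ‖h‖` (`p` onto), so both are continuous. -/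
def MCS_stmt : Prop := ∀ (X : Type) [TopologicalSpace X] [CompactSpace X] [TopologicalSpace.MetrizableSpace X]
  [PathConnectedSpace X] (f : C(X, X)) (x₀ : X), Function.Surjective f → ∃ (Y : Type) (_ : TopologicalSpace Y) (_ : CompactSpace Y)
    (_ : TopologicalSpace.MetrizableSpace Y) (_ : PathConnectedSpace Y) (y : Y) (Θ : C(Y, ℂ) ≃ₐ[ℂ] MC (pbC ℂ f)),
    Continuous Θ ∧ Continuous Θ.symm ∧
    ∀ h, eM (pbC ℂ f) (evC ℂ x₀) (Θ h) = h y

/-- ROW pvg:SUS (medium; from SUB). The reduced suspension as a space. `Z = UnitAddCircle × Y₀`, `R` = the `h` with `h(0, ·)` and `h(·, y₀)` constant; as MCS. -/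
def SUS_stmt : Prop := ∀ (Y₀ : Type) [TopologicalSpace Y₀] [CompactSpace Y₀] [TopologicalSpace.MetrizableSpace Y₀]
  [PathConnectedSpace Y₀] (y₀ : Y₀), ∃ (Y : Type) (_ : TopologicalSpace Y) (_ : CompactSpace Y)
    (_ : TopologicalSpace.MetrizableSpace Y) (_ : PathConnectedSpace Y) (y : Y) (Θ : C(Y, ℂ) ≃ₐ[ℂ] L2 (evC ℂ y₀)),
    Continuous Θ ∧ Continuous Θ.symm ∧
    ∀ h, e2 (evC ℂ y₀) (Θ h) = h y

/-- ROW pvg:WSP (short-medium). The wedge `Y = {(a, b) : a = y₀ or b = y₁}`, a closed subspace of `Y₀ × Y₁`; `y = (y₀, y₁)`; path connected (union of two images with a common point). `j h (a,b) = h b`, `r g (a,b) = g a`, `e c (a) = c (a, y₁)`. `Split`: if `c(a, y₁) = z` for all `a` then `c (a, b) = c (y₀, b)` on `Y`. -/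
def WSP_stmt : Prop := ∀ (Y₀ Y₁ : Type) [TopologicalSpace Y₀] [CompactSpace Y₀] [TopologicalSpace.MetrizableSpace Y₀]
  [PathConnectedSpace Y₀] [TopologicalSpace Y₁] [CompactSpace Y₁] [TopologicalSpace.MetrizableSpace Y₁]
  [PathConnectedSpace Y₁] (y₀ : Y₀) (y₁ : Y₁), ∃ (Y : Type) (_ : TopologicalSpace Y) (_ : CompactSpace Y)
    (_ : TopologicalSpace.MetrizableSpace Y) (_ : PathConnectedSpace Y) (y : Y) (j : C(Y₁, ℂ) →ₐ[ℂ] C(Y, ℂ))
    (e : C(Y, ℂ) →ₐ[ℂ] C(Y₀, ℂ)) (r : C(Y₀, ℂ) →ₐ[ℂ] C(Y, ℂ)), Split j e r ∧ (∀ h, j h y = h y₁) ∧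
    ∀ g, r g y = g y₀

/-- ROW pvg:WDK (short; from FUN, SX0, SX1, WSP). K-theory of the wedge. `r_*` is a bijection of the kernels of the evaluations: `z = j_* x + r_* y'` (SX0 with `χ` = evaluation at `y₀`), apply evaluation at `y`: `x` is in the kernel of the evaluation at `y₁`, so `x = 0`. `j_*` is bijective on `K₁` (`K₁(C(Y₀)) = 0`). -/
def WDK_stmt : Prop := ∀ (Y₀ Y₁ : Type) [TopologicalSpace Y₀] [CompactSpace Y₀] [TopologicalSpace.MetrizableSpace Y₀]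
  [PathConnectedSpace Y₀] [TopologicalSpace Y₁] [CompactSpace Y₁] [TopologicalSpace.MetrizableSpace Y₁]
  [PathConnectedSpace Y₁] (y₀ : Y₀) (y₁ : Y₁), (∀ z : K0 C(Y₁, ℂ), k0map (evC ℂ y₁).toRingHom z = 0 → z = 0) →
  (∀ z : K1 C(Y₀, ℂ), z = 0) → ∃ (Y : Type) (_ : TopologicalSpace Y) (_ : CompactSpace Y)
    (_ : TopologicalSpace.MetrizableSpace Y) (_ : PathConnectedSpace Y) (y : Y),
    Nonempty ((k0map (evC ℂ y).toRingHom).ker ≃+ (k0map (evC ℂ y₀).toRingHom).ker) ∧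
    Nonempty (K1 C(Y, ℂ) ≃+ K1 C(Y₁, ℂ))

/-- ROW pvg:KEQ (short; from FUN). Isomorphic algebras. `k0map Θ` and `k0map Θ.symm` are inverse to each other. -/
def KEQ_stmt : Prop := ∀ (A B : Type) [NormedRing A] [NormedAlgebra ℂ A] [NormedRing B] [NormedAlgebra ℂ B] (Θ : A ≃ₐ[ℂ] B),
  Continuous Θ → Continuous Θ.symm → (∀ (χ : A →ₐ[ℂ] ℂ) (χ' : B →ₐ[ℂ] ℂ), (∀ a, χ' (Θ a) = χ a) →
    Nonempty ((k0map χ.toRingHom).ker ≃+ (k0map χ'.toRingHom).ker)) ∧ Nonempty (K1 A ≃+ K1 B)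

end Pool.Agent.PV
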