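import Pool.Agent.helper45.PV.AllG
import Pool.Agent.helper45.PV.LFT
import Pool.Agent.helper45.PV.MK1
import Pool.Agent.helper55.PV.BNT
import Pool.Agent.helper93.PV.CIN
import Pool.Agent.helper68.PV.CPL
import Pool.Agent.helper80.PV.IDC
import Pool.Agent.helper99.PV.K1A
import Pool.Agent.helper92.PV.K1D
import Pool.Agent.helper80.PV.K1E
import Pool.Agent.helper52.PV.KEQ
import Pool.Agent.helper83.PV.KR1
import Pool.Agent.helper41.PV.KR2
import Pool.Agent.helper80.PV.LC1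
import Pool.Agent.helper90.PV.LOP
import Pool.Agent.helper48.PV.LPM
import Pool.Agent.helper75.PV.MCS
import Pool.Agent.helper98.PV.MK0
import Pool.Agent.helper89.PV.ONT
import Pool.Agent.helper20.PV.S1S
import Pool.Agent.helper10.PV.S20
import Pool.Agent.helper9.PV.S21
import Pool.Agent.helper76.PV.S2S
import Pool.Agent.helper45.PV.SCLb
import Pool.Agent.helper30.PV.SCP
import Pool.Agent.helper70.PV.SUS
import Pool.Agent.helper99.PV.WDK
import Pool.Agent.helper32.PV.WSP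

/-!
# Project pv, block G: the complete assembly
-/

set_option autoImplicit false

open scoped Matrix Topology

namespace Pool.Agent.PV

open Pool.Agent.CZ

/-- block G from the statements of blocks A, B, C and of half 1 -/
theorem YSP_top (hFUN : FUN_stmt) (hK0E : K0E_stmt) (hK0B : K0B_stmt) (hK0G : K0G_stmt) (hK0C : K0C_stmt)
    (hK0D : K0D_stmt) (hK1M : K1M_stmt) (hK1B : K1B_stmt) (hK1G : K1G_stmt) (hK1Z : K1Z_stmt)
    (hROT : ROT_stmt) (hPTH : PTH_stmt) (hGLC : GLC_stmt) (hKC : KC_stmt) (hSX0 : SX0_stmt)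
    (hSX1 : SX1_stmt) (hBOT : BOT_stmt) (hHOL : HOL_stmt) (hPRE : PRE_stmt) (hSUB : SUB_stmt) :
    YSP_stmt := by
  have hIDC : IDC_stmt := IDC hPTH
  have hLFT : LFT_stmt := LFT hROT
  have hSCP : SCP_stmt := SCP CIN hK1M
  have hSCL : SCL_stmt := SCLb CIN hGLC hSCP
  have hLPM : LPM_stmt := LPM LOP
  have hONT : ONT_stmt := ONT hFUN hK0E hK0B hK0G hK0C hK0D hIDC hLFT hSCL hLPM
  have hKR1 : KR1_stmt := KR1 hFUN hK0E hK0B hK1M hK1B hK1G hLFT hLPM
  have hKR2 : KR2_stmt := KR2 hFUN hK0E hK0B hK0G hK0C hK0D hK1M hKC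
  have hLC1 : LC1_stmt := LC1 hFUN hSX0 CPL S1S
  have hMK0 : MK0_stmt := MK0 hFUN hHOL hLC1 hONT hKR1 hKR2
  have hK1A : K1A_stmt := K1A hFUN hK1M hK1B hK1G hK1Z hKC CIN
  have hK1D : K1D_stmt := K1D hK1M hSCL
  have hK1E : K1E_stmt := K1E hFUN hK0B hK1M hSX1 hBOT CPL S1S hSCP hLPM
  have hMK1 : MK1_stmt := MK1 hK1A hK1D hK1E
  have hS20 : S20_stmt := S20 hFUN hSX0 hHOL CPL hLC1 S2S
  have hBNT : BNT_stmt := BNT hFUN hK0G hK0B
  have hS21 : S21_stmt := S21 hFUN hSX1 hBOT hKC CPL S1S S2S hBNT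
  have hWDK : WDK_stmt := WDK hFUN hSX0 hSX1 WSP
  exact YSP_of hPRE hMK0 hMK1 (MCS hSUB) (KEQ hFUN) hS20 hS21 (SUS hSUB) hWDK

end Pool.Agent.PV
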